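import Pool.Agent.Q196.FD.Inv

/-! # The average over the great semicircles -/

set_option autoImplicit false

open Real Set MeasureTheory Metric Filter Topology
open scoped ENNReal

namespace Pool.Agent.Q196.FD

open Pool.Agent.Y499.HC

variable {f v : ℝ → ℝ}

lemma meas_arg : Measurable fun s : ℝ => Real.arsinh (Real.tan s) := by
  have h : (fun s : ℝ => Real.arsinh (Real.tan s)) =
      fun s => Real.arsinh (Real.sin s / Real.cos s) := by
    funext s
    rw [Real.tan_eq_sin_div_cos]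
  rw [h]
  exact Real.continuous_arsinh.measurable.comp (Real.measurable_sin.div Real.measurable_cos)

/-- the averaged inequality, in the latitude -/
lemma avg_ineq (hc : Continuous f) (hp : ∀ t, 0 < f t) (hv : ∀ t, HasDerivAt v (f (v t)) t)
    {ρ : ℝ} (hρ : ρ ∈ Ioo 0 (π / 2))
    (H : ∀ α ∈ Ioo 0 ρ, π ≤ ∫ τ in (0 : ℝ)..π, f (cv v α τ) / C α τ) :
    ∫⁻ s in Ioo 0 ρ, ENNReal.ofReal (Real.cos s) ≤
      ∫⁻ s in Ioo 0 ρ, ENNReal.ofReal (f (v (Real.arsinh (Real.tan s)))) := by
  have hvc : Continuous v := continuous_iff_continuousAt.2 fun t => (hv t).continuousAt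
  have hinv := Pool.Agent.Y908.HC.t_INV2 0 ρ hρ
  have h1 := hinv (fun s => ENNReal.ofReal (Real.cos s * f (v (Real.arsinh (Real.tan s)))))
    (ENNReal.measurable_ofReal.comp (Real.measurable_cos.mul
      ((hc.comp hvc).measurable.comp meas_arg)))
  have h2 := hinv (fun s => ENNReal.ofReal (Real.cos s ^ 2))
    (ENNReal.measurable_ofReal.comp (Real.measurable_cos.pow_const 2))
  have hcos : ∀ s ∈ Ioo (0 : ℝ) ρ, 0 < Real.cos s := fun s hs =>
    Real.cos_pos_of_mem_Ioo ⟨by linarith [hs.1, pi_pos], hs.2.trans hρ.2⟩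
  have h3 : ∫⁻ s in Ioo 0 ρ, ENNReal.ofReal (1 / Real.cos s ^ (0 + 1)) *
      ENNReal.ofReal (Real.cos s ^ 2) = ∫⁻ s in Ioo 0 ρ, ENNReal.ofReal (Real.cos s) := by
    refine setLIntegral_congr_fun measurableSet_Ioo fun s hs => ?_
    have h := hcos s hs
    rw [zero_add, pow_one, ← ENNReal.ofReal_mul (by positivity)]
    congr 1
    field_simp
  have h4 : ∫⁻ s in Ioo 0 ρ, ENNReal.ofReal (1 / Real.cos s ^ (0 + 1)) *
      ENNReal.ofReal (Real.cos s * f (v (Real.arsinh (Real.tan s)))) =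
      ∫⁻ s in Ioo 0 ρ, ENNReal.ofReal (f (v (Real.arsinh (Real.tan s)))) := by
    refine setLIntegral_congr_fun measurableSet_Ioo fun s hs => ?_
    have h := hcos s hs
    rw [zero_add, pow_one, ← ENNReal.ofReal_mul (by positivity)]
    congr 1
    field_simp
  rw [h4] at h1
  rw [h3] at h2
  have h5 : ENNReal.ofReal π * ∫⁻ s in Ioo 0 ρ, ENNReal.ofReal (Real.cos s) ≤
      ENNReal.ofReal π *
        ∫⁻ s in Ioo 0 ρ, ENNReal.ofReal (f (v (Real.arsinh (Real.tan s)))) := by
    rw [← h1, ← h2]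
    refine setLIntegral_mono' measurableSet_Ioo fun α hα => ?_
    refine mul_le_mul_right ?_ _
    have hα' : α ∈ Ioo 0 (π / 2) := ⟨hα.1, hα.2.trans hρ.2⟩
    have h6 : ∫⁻ τ in Ioo 0 π, ENNReal.ofReal (1 / C α τ ^ (0 + 2)) *
        ENNReal.ofReal (Real.cos (S α τ) ^ 2) = ENNReal.ofReal π := by
      have h7 : ∀ τ, ENNReal.ofReal (1 / C α τ ^ (0 + 2)) *
          ENNReal.ofReal (Real.cos (S α τ) ^ 2) = 1 := by
        intro τ
        have h8 := C_pos' hα' τ
        rw [cos_S' hα', ← ENNReal.ofReal_mul (by positivity), ← ENNReal.ofReal_one]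
        congr 1
        field_simp
      simp only [h7]
      rw [lintegral_one, Measure.restrict_apply_univ, Real.volume_Ioo, sub_zero]
    rw [h6]
    have h9 : ∀ τ, ENNReal.ofReal (1 / C α τ ^ (0 + 2)) *
        ENNReal.ofReal (Real.cos (S α τ) * f (v (Real.arsinh (Real.tan (S α τ))))) =
        ENNReal.ofReal (f (cv v α τ) / C α τ) := by
      intro τ
      have h8 := C_pos' hα' τ
      rw [cos_S' hα', ← ENNReal.ofReal_mul (by positivity)]
      congr 1
      unfold cv
      field_simp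
    simp only [h9]
    have hcont : Continuous fun τ => f (cv v α τ) / C α τ :=
      (hc.comp (continuous_cv hv hα')).div (continuous_C α) fun t => (C_pos' hα' t).ne'
    have h10 := H α hα
    rw [intervalIntegral.integral_of_le pi_pos.le] at h10
    calc ENNReal.ofReal π ≤ ENNReal.ofReal (∫ τ in Ioc 0 π, f (cv v α τ) / C α τ) :=
          ENNReal.ofReal_le_ofReal h10
      _ = ∫⁻ τ in Ioc 0 π, ENNReal.ofReal (f (cv v α τ) / C α τ) := by
          refine ofReal_integral_eq_lintegral_ofReal ?_ ?_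
          · exact (hcont.integrableOn_Icc).mono_set Ioc_subset_Icc_self
          · exact Eventually.of_forall fun τ => (div_pos (hp _) (C_pos' hα' τ)).le
      _ = ∫⁻ τ in Ioo 0 π, ENNReal.ofReal (f (cv v α τ) / C α τ) :=
          setLIntegral_congr Ioo_ae_eq_Ioc.symm
  have hπ0 : ENNReal.ofReal π ≠ 0 := by
    rw [Ne, ENNReal.ofReal_eq_zero, not_le]
    exact pi_pos
  exact (ENNReal.mul_le_mul_iff_right hπ0 ENNReal.ofReal_ne_top).1 h5

end Pool.Agent.Q196.FD
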