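import Pool.Agent.Y499.HC.Curve2
import Pool.Agent.Y908.HC.Inv2

/-! # Conformal coordinate of a warped strip and the average over the great semicircles -/

set_option autoImplicit false

open Real Set MeasureTheory Metric Filter Topology
open scoped ENNReal

namespace Pool.Agent.Q196.FD

open Pool.Agent.Y499.HC

/-- the conformal coordinate `∫_0^a 1 / f` -/
noncomputable def uu (f : ℝ → ℝ) (a : ℝ) : ℝ := ∫ t in (0 : ℝ)..a, 1 / f t

section

variable {f : ℝ → ℝ}

lemma hasDerivAt_uu (hc : Continuous f) (hp : ∀ t, 0 < f t) (a : ℝ) :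
    HasDerivAt (uu f) (1 / f a) a :=
  ((continuous_const.div hc fun t => (hp t).ne').integral_hasStrictDerivAt 0 a).hasDerivAt

lemma uu_zero : uu f 0 = 0 := by simp [uu]

lemma uu_strictMono (hc : Continuous f) (hp : ∀ t, 0 < f t) : StrictMono (uu f) := by
  refine strictMono_of_deriv_pos fun x => ?_
  rw [(hasDerivAt_uu hc hp x).deriv]
  exact one_div_pos.2 (hp x)

lemma uu_continuous (hc : Continuous f) (hp : ∀ t, 0 < f t) : Continuous (uu f) :=
  continuous_iff_continuousAt.2 fun x => (hasDerivAt_uu hc hp x).continuousAt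

lemma uu_surjective (hc : Continuous f) (hp : ∀ t, 0 < f t) {B : ℝ} (hB : ∀ t, f t ≤ B) :
    Function.Surjective (uu f) := by
  have hB0 : 0 < B := (hp 0).trans_le (hB 0)
  have hcont : Continuous fun t => 1 / f t := continuous_const.div hc fun t => (hp t).ne'
  have h1 : ∀ a, 0 ≤ a → a * (1 / B) ≤ uu f a := by
    intro a ha
    have h2 : ∫ _ in (0 : ℝ)..a, (1 / B) ≤ uu f a := by
      refine intervalIntegral.integral_mono_on ha ?_ (hcont.intervalIntegrable _ _) ?_
      · exact intervalIntegrable_const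
      · intro t _
        exact one_div_le_one_div_of_le (hp t) (hB t)
    rwa [intervalIntegral.integral_const, smul_eq_mul, sub_zero] at h2
  have h3 : ∀ a, a ≤ 0 → uu f a ≤ a * (1 / B) := by
    intro a ha
    have h2 : ∫ _ in a..(0 : ℝ), (1 / B) ≤ ∫ t in a..(0 : ℝ), 1 / f t := by
      refine intervalIntegral.integral_mono_on ha ?_ (hcont.intervalIntegrable _ _) ?_
      · exact intervalIntegrable_const
      · intro t _
        exact one_div_le_one_div_of_le (hp t) (hB t)
    rw [intervalIntegral.integral_const, smul_eq_mul, zero_sub] at h2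
    unfold uu
    rw [intervalIntegral.integral_symm]
    linarith
  have hB1 : 0 < 1 / B := one_div_pos.2 hB0
  refine (uu_continuous hc hp).surjective ?_ ?_
  · refine tendsto_atTop_mono' _ ?_ (tendsto_id.atTop_mul_const hB1)
    filter_upwards [eventually_ge_atTop 0] with a ha
    exact h1 a ha
  · refine tendsto_atBot_mono' _ ?_ (tendsto_id.atBot_mul_const hB1)
    filter_upwards [eventually_le_atBot 0] with a ha
    exact h3 a ha

lemma exists_inv (hc : Continuous f) (hp : ∀ t, 0 < f t) {B : ℝ} (hB : ∀ t, f t ≤ B) :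
    ∃ v : ℝ → ℝ, (∀ a, v (uu f a) = a) ∧ (∀ t, uu f (v t) = t) ∧
      (∀ t, HasDerivAt v (f (v t)) t) ∧ Monotone v := by
  let e := StrictMono.orderIsoOfSurjective (uu f) (uu_strictMono hc hp) (uu_surjective hc hp hB)
  have h1 : ∀ a, e.symm (uu f a) = a := fun a => e.symm_apply_apply a
  have h2 : ∀ t, uu f (e.symm t) = t := fun t => e.apply_symm_apply t
  refine ⟨e.symm, h1, h2, fun t => ?_, e.symm.monotone⟩
  have h3 := HasDerivAt.of_local_left_inverse (f := uu f) (g := e.symm) (a := t)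
    e.symm.continuous.continuousAt (hasDerivAt_uu hc hp (e.symm t))
    (one_div_pos.2 (hp _)).ne' (Eventually.of_forall h2)
  simpa using h3

end

/-! ## The curves -/

section

variable {f v : ℝ → ℝ} {α : ℝ}

lemma cos_S' (hα : α ∈ Ioo 0 (π / 2)) (t : ℝ) : Real.cos (S α t) = C α t := by
  unfold S C
  rw [Real.cos_arcsin]

lemma C_pos' (hα : α ∈ Ioo 0 (π / 2)) (t : ℝ) : 0 < C α t := Pool.Agent.Z932.HC.C_pos hα t

lemma C_sq' (hα : α ∈ Ioo 0 (π / 2)) (t : ℝ) : C α t ^ 2 = 1 - (Real.sin α * Real.sin t) ^ 2 :=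
  Pool.Agent.Z932.HC.C_sq hα t

/-- the first coordinate of the test curve -/
noncomputable def cv (v : ℝ → ℝ) (α τ : ℝ) : ℝ := v (Real.arsinh (Real.tan (S α τ)))

lemma hasDerivAt_cv (hv : ∀ t, HasDerivAt v (f (v t)) t) (hα : α ∈ Ioo 0 (π / 2)) (t : ℝ) :
    HasDerivAt (cv v α) (f (cv v α t) * (Real.sin α * Real.cos t / C α t ^ 2)) t := by
  have hC := C_pos' hα t
  have h1 := Pool.Agent.Z932.HC.hasDerivAt_S hα t
  have hne : Real.cos (S α t) ≠ 0 := by rw [cos_S' hα]; exact hC.ne'
  have h2 := (Real.hasDerivAt_tan hne).comp t h1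
  have h3 := (Real.hasDerivAt_arsinh (Real.tan (S α t))).comp t h2
  have h4 := (hv (Real.arsinh (Real.tan (S α t)))).comp t h3
  refine h4.congr_deriv ?_
  have h5 : Real.sqrt (1 + Real.tan (S α t) ^ 2) = 1 / C α t := by
    rw [Real.sqrt_eq_iff_mul_self_eq_of_pos (by positivity)]
    rw [Real.tan_eq_sin_div_cos, ← cos_S' hα]
    have h6 := Real.sin_sq_add_cos_sq (S α t)
    field_simp
    linarith
  unfold cv
  rw [h5, cos_S' hα]
  field_simp

lemma continuous_C (α : ℝ) : Continuous (C α) := by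
  unfold C
  fun_prop

lemma continuous_cv (hv : ∀ t, HasDerivAt v (f (v t)) t) (hα : α ∈ Ioo 0 (π / 2)) :
    Continuous (cv v α) :=
  continuous_iff_continuousAt.2 fun t => (hasDerivAt_cv hv hα t).continuousAt

lemma contDiff_cv (hc : Continuous f) (hv : ∀ t, HasDerivAt v (f (v t)) t)
    (hα : α ∈ Ioo 0 (π / 2)) : ContDiff ℝ 1 (cv v α) := by
  rw [contDiff_one_iff_deriv]
  refine ⟨fun t => (hasDerivAt_cv hv hα t).differentiableAt, ?_⟩
  have h1 : deriv (cv v α) = fun t => f (cv v α t) * (Real.sin α * Real.cos t / C α t ^ 2) :=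
    funext fun t => (hasDerivAt_cv hv hα t).deriv
  rw [h1]
  refine (hc.comp (continuous_cv hv hα)).mul (Continuous.div (by fun_prop) ?_ ?_)
  · exact (continuous_C α).pow 2
  · intro t
    exact (pow_pos (C_pos' hα t) 2).ne'

end

end Pool.Agent.Q196.FD
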