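import Pool.Agent.Q196.FD.Avg

/-! # The collar inequality for the exponent one -/

set_option autoImplicit false

open Real Set MeasureTheory Metric Filter Topology
open scoped ENNReal

namespace Pool.Agent.Q196.FD

open Pool.Agent.Y499.HC

variable {f v : ℝ → ℝ}

/-- `∫_0^A 1 / cosh u` -/
noncomputable def GG (f : ℝ → ℝ) (A : ℝ) : ℝ := ∫ a in (0 : ℝ)..A, 1 / Real.cosh (uu f a)

lemma uu_pos (hc : Continuous f) (hp : ∀ t, 0 < f t) {A : ℝ} (hA : 0 < A) : 0 < uu f A := by
  have h := uu_strictMono hc hp hA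
  rwa [uu_zero] at h

lemma cont_inv_cosh (hc : Continuous f) (hp : ∀ t, 0 < f t) :
    Continuous fun a => 1 / Real.cosh (uu f a) :=
  continuous_const.div (Real.continuous_cosh.comp (uu_continuous hc hp))
    fun a => (Real.cosh_pos _).ne'

lemma hasDerivAt_GG (hc : Continuous f) (hp : ∀ t, 0 < f t) (a : ℝ) :
    HasDerivAt (GG f) (1 / Real.cosh (uu f a)) a :=
  ((cont_inv_cosh hc hp).integral_hasStrictDerivAt 0 a).hasDerivAt

lemma D_ineq (hc : Continuous f) (hp : ∀ t, 0 < f t) (hv : ∀ t, HasDerivAt v (f (v t)) t)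
    (hvu : ∀ a, v (uu f a) = a) {A : ℝ} (hA : 0 < A)
    (H : ∀ α ∈ Ioo 0 (Real.arctan (Real.sinh (uu f A))),
      π ≤ ∫ τ in (0 : ℝ)..π, f (cv v α τ) / C α τ) :
    Real.sinh (uu f A) / Real.cosh (uu f A) ≤ GG f A := by
  have hU := uu_pos hc hp hA
  have hsU : 0 < Real.sinh (uu f A) := Real.sinh_pos_iff.2 hU
  have hρ : Real.arctan (Real.sinh (uu f A)) ∈ Ioo 0 (π / 2) :=
    ⟨Real.arctan_pos.2 hsU, Real.arctan_lt_pi_div_two _⟩
  have hvc : Continuous v := continuous_iff_continuousAt.2 fun t => (hv t).continuousAt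
  have h1 := avg_ineq hc hp hv hρ H
  set ρ := Real.arctan (Real.sinh (uu f A)) with hρd
  have hcont : ContinuousOn (fun s => f (v (Real.arsinh (Real.tan s)))) (Ioo (-(π / 2)) (π / 2)) :=
    (hc.comp (hvc.comp Real.continuous_arsinh)).comp_continuousOn Real.continuousOn_tan_Ioo
  have hsub : Icc 0 ρ ⊆ Ioo (-(π / 2)) (π / 2) := by
    intro s hs
    exact ⟨by linarith [hs.1, pi_pos], hs.2.trans_lt hρ.2⟩
  have h2 : Real.sin ρ ≤ ∫ s in (0 : ℝ)..ρ, f (v (Real.arsinh (Real.tan s))) := by
    have h3 : ENNReal.ofReal (Real.sin ρ) = ∫⁻ s in Ioo 0 ρ, ENNReal.ofReal (Real.cos s) := by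
      rw [setLIntegral_congr (Ioo_ae_eq_Ioc (a := (0 : ℝ)) (b := ρ)),
        ← ofReal_integral_eq_lintegral_ofReal]
      · rw [← intervalIntegral.integral_of_le hρ.1.le, integral_cos, Real.sin_zero, sub_zero]
      · exact (Real.continuous_cos.integrableOn_Icc).mono_set Ioc_subset_Icc_self
      · refine (ae_restrict_mem measurableSet_Ioc).mono fun s hs => ?_
        exact (Real.cos_pos_of_mem_Ioo ⟨by linarith [hs.1, pi_pos], hs.2.trans_lt hρ.2⟩).le
    have h4 : ENNReal.ofReal (∫ s in (0 : ℝ)..ρ, f (v (Real.arsinh (Real.tan s)))) =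
        ∫⁻ s in Ioo 0 ρ, ENNReal.ofReal (f (v (Real.arsinh (Real.tan s)))) := by
      rw [setLIntegral_congr (Ioo_ae_eq_Ioc (a := (0 : ℝ)) (b := ρ)),
        ← ofReal_integral_eq_lintegral_ofReal]
      · rw [← intervalIntegral.integral_of_le hρ.1.le]
      · exact ((hcont.mono hsub).integrableOn_Icc).mono_set Ioc_subset_Icc_self
      · exact Eventually.of_forall fun s => (hp _).le
    rw [← h3, ← h4] at h1
    refine (ENNReal.ofReal_le_ofReal_iff ?_).1 h1
    exact intervalIntegral.integral_nonneg hρ.1.le fun s _ => (hp _).le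
  have hd : ∀ a, HasDerivAt (fun a => Real.arctan (Real.sinh (uu f a)))
      (1 / (1 + Real.sinh (uu f a) ^ 2) * (Real.cosh (uu f a) * (1 / f a))) a := fun a =>
    (Real.hasDerivAt_arctan _).comp a ((Real.hasDerivAt_sinh _).comp a (hasDerivAt_uu hc hp a))
  have h5 := intervalIntegral.integral_comp_mul_deriv' (a := 0) (b := A)
    (f := fun a => Real.arctan (Real.sinh (uu f a)))
    (f' := fun a => 1 / (1 + Real.sinh (uu f a) ^ 2) * (Real.cosh (uu f a) * (1 / f a)))
    (g := fun s => f (v (Real.arsinh (Real.tan s)))) (fun x _ => hd x) ?_ ?_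
  · have h6 : Real.arctan (Real.sinh (uu f 0)) = 0 := by
      rw [uu_zero, Real.sinh_zero, Real.arctan_zero]
    simp only [h6] at h5
    rw [← hρd] at h5
    rw [← h5] at h2
    have h7 : ∫ x in (0 : ℝ)..A, ((fun s => f (v (Real.arsinh (Real.tan s)))) ∘
        fun a => Real.arctan (Real.sinh (uu f a))) x *
        (1 / (1 + Real.sinh (uu f x) ^ 2) * (Real.cosh (uu f x) * (1 / f x))) = GG f A := by
      refine intervalIntegral.integral_congr fun x _ => ?_
      simp only [Function.comp_apply]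
      rw [Real.tan_arctan, Real.arsinh_sinh, hvu]
      have h8 := Real.cosh_sq (uu f x)
      have h9 := (hp x).ne'
      have h10 := (Real.cosh_pos (uu f x)).ne'
      have h11 : (1 : ℝ) + Real.sinh (uu f x) ^ 2 = Real.cosh (uu f x) ^ 2 := by rw [h8]; ring
      rw [h11]
      field_simp
    rw [h7] at h2
    refine le_trans (le_of_eq ?_) h2
    rw [hρd, Real.sin_arctan]
    congr 1
    rw [add_comm, ← Real.cosh_sq, Real.sqrt_sq (Real.cosh_pos _).le]
  · refine Continuous.continuousOn ?_
    have h12 := uu_continuous hc hp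
    refine Continuous.mul (continuous_const.div ?_ ?_) (Continuous.mul ?_
      (continuous_const.div hc fun t => (hp t).ne'))
    · exact continuous_const.add ((Real.continuous_sinh.comp h12).pow 2)
    · intro x
      positivity
    · exact Real.continuous_cosh.comp h12
  · refine hcont.mono ?_
    rintro _ ⟨a, _, rfl⟩
    exact ⟨Real.neg_pi_div_two_lt_arctan _, Real.arctan_lt_pi_div_two _⟩

/-- the comparison with the sine -/
lemma sin_le_GG (hc : Continuous f) (hp : ∀ t, 0 < f t) {A : ℝ} (hA : 0 ≤ A) (hA2 : A ≤ π / 2)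
    (HD : ∀ a ∈ Ioc 0 A, Real.sinh (uu f a) / Real.cosh (uu f a) ≤ GG f a) :
    Real.sin A ≤ GG f A := by
  rcases hA.eq_or_lt with rfl | hA0
  · simp [GG]
  by_cases h1 : 1 ≤ GG f A
  · exact (Real.sin_le_one A).trans h1
  push Not at h1
  have hmono : Monotone (GG f) :=
    monotone_of_deriv_nonneg (fun x => (hasDerivAt_GG hc hp x).differentiableAt) fun x => by
      rw [(hasDerivAt_GG hc hp x).deriv]
      have := Real.cosh_pos (uu f x)
      positivity
  have h0 : GG f 0 = 0 := by simp [GG]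
  have hlt : ∀ a ∈ Icc 0 A, GG f a < 1 := fun a ha => (hmono ha.2).trans_lt h1
  have hge : ∀ a ∈ Icc 0 A, 0 ≤ GG f a := fun a ha => by
    have := hmono ha.1
    rwa [h0] at this
  have hder : ∀ a ∈ Icc 0 A, HasDerivAt (fun a => Real.arcsin (GG f a) - a)
      (1 / √(1 - GG f a ^ 2) * (1 / Real.cosh (uu f a)) - 1) a := by
    intro a ha
    have h2 := hlt a ha
    have h3 := hge a ha
    exact ((Real.hasDerivAt_arcsin (by linarith) h2.ne).comp a (hasDerivAt_GG hc hp a)).sub
      (hasDerivAt_id a)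
  have hM : MonotoneOn (fun a => Real.arcsin (GG f a) - a) (Icc 0 A) := by
    refine monotoneOn_of_deriv_nonneg (convex_Icc 0 A) ?_ ?_ ?_
    · exact fun a ha => (hder a ha).continuousAt.continuousWithinAt
    · intro a ha
      rw [interior_Icc] at ha
      exact (hder a (Ioo_subset_Icc_self ha)).differentiableAt.differentiableWithinAt
    · intro a ha
      rw [interior_Icc] at ha
      rw [(hder a (Ioo_subset_Icc_self ha)).deriv]
      have h2 := hlt a (Ioo_subset_Icc_self ha)
      have h3 := hge a (Ioo_subset_Icc_self ha)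
      have h4 := HD a ⟨ha.1, ha.2.le⟩
      have h5 := uu_pos hc hp ha.1
      have h6 : 0 < Real.sinh (uu f a) := Real.sinh_pos_iff.2 h5
      have h7 := Real.cosh_pos (uu f a)
      have h8 : 0 < 1 - GG f a ^ 2 := by nlinarith
      have h9 : √(1 - GG f a ^ 2) ≤ 1 / Real.cosh (uu f a) := by
        refine Real.sqrt_le_iff.2 ⟨by positivity, ?_⟩
        have h10 : (Real.sinh (uu f a) / Real.cosh (uu f a)) ^ 2 ≤ GG f a ^ 2 :=
          pow_le_pow_left₀ (by positivity) h4 2
        have h11 := Real.cosh_sq (uu f a)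
        have h12 : (1 / Real.cosh (uu f a)) ^ 2 =
            1 - (Real.sinh (uu f a) / Real.cosh (uu f a)) ^ 2 := by
          field_simp
          linarith
        rw [h12]
        linarith
      have h13 : 0 < √(1 - GG f a ^ 2) := Real.sqrt_pos.2 h8
      have h14 : 1 ≤ 1 / √(1 - GG f a ^ 2) * (1 / Real.cosh (uu f a)) := by
        rw [one_div_mul_eq_div, le_div_iff₀ h13, one_mul]
        exact h9
      linarith
  have h2 := hM (left_mem_Icc.2 hA) (right_mem_Icc.2 hA) hA
  simp only [h0, Real.arcsin_zero, sub_zero] at h2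
  have h3 : A ≤ Real.arcsin (GG f A) := by linarith
  have h4 := Real.sin_le_sin_of_le_of_le_pi_div_two (by linarith [pi_pos])
    (Real.arcsin_le_pi_div_two _) h3
  rwa [Real.sin_arcsin (by linarith [hge A ⟨hA, le_rfl⟩]) h1.le] at h4

/-- the collar inequality for the exponent one -/
lemma sin_le_integral (hc : Continuous f) (hp : ∀ t, 0 < f t) {A : ℝ} (hA : 0 ≤ A)
    (hA2 : A ≤ π / 2)
    (HD : ∀ a ∈ Ioc 0 A, Real.sinh (uu f a) / Real.cosh (uu f a) ≤ GG f a) :
    Real.sin A ≤ ∫ a in (0 : ℝ)..A, f a := by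
  have h1 := sin_le_GG hc hp hA hA2 HD
  have hu := uu_continuous hc hp
  have hder : ∀ a, HasDerivAt (fun a => Real.sinh (uu f a) / Real.cosh (uu f a))
      (1 / f a * (1 / Real.cosh (uu f a) ^ 2)) a := by
    intro a
    have h2 := hasDerivAt_uu hc hp a
    have h3 := ((Real.hasDerivAt_sinh _).comp a h2).div ((Real.hasDerivAt_cosh _).comp a h2)
      (Real.cosh_pos (uu f a)).ne'
    refine h3.congr_deriv ?_
    have h4 := Real.cosh_sq (uu f a)
    have h5 := (Real.cosh_pos (uu f a)).ne'
    have h6 := (hp a).ne'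
    simp only [Function.comp_apply]
    field_simp
    linarith
  have hc2 : Continuous fun a => 1 / f a * (1 / Real.cosh (uu f a) ^ 2) :=
    (continuous_const.div hc fun t => (hp t).ne').mul
      (continuous_const.div ((Real.continuous_cosh.comp hu).pow 2)
        fun a => (pow_pos (Real.cosh_pos _) 2).ne')
  have h3 : ∫ a in (0 : ℝ)..A, 1 / f a * (1 / Real.cosh (uu f a) ^ 2) =
      Real.sinh (uu f A) / Real.cosh (uu f A) := by
    rw [intervalIntegral.integral_eq_sub_of_hasDerivAt (fun x _ => hder x)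
      (hc2.intervalIntegrable _ _)]
    rw [uu_zero, Real.sinh_zero, zero_div, sub_zero]
  have h4 : ∫ a in (0 : ℝ)..A, (2 * (1 / Real.cosh (uu f a)) -
      1 / f a * (1 / Real.cosh (uu f a) ^ 2)) ≤ ∫ a in (0 : ℝ)..A, f a := by
    refine intervalIntegral.integral_mono_on hA ?_ (hc.intervalIntegrable _ _) ?_
    · exact ((continuous_const.mul (cont_inv_cosh hc hp)).sub hc2).intervalIntegrable _ _
    · intro a _
      have h5 := hp a
      have h6 := Real.cosh_pos (uu f a)
      have h7 : 0 ≤ (f a - 1 / Real.cosh (uu f a)) ^ 2 / f a := by positivity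
      have h8 : (f a - 1 / Real.cosh (uu f a)) ^ 2 / f a =
          f a - 2 * (1 / Real.cosh (uu f a)) + 1 / f a * (1 / Real.cosh (uu f a) ^ 2) := by
        field_simp
        ring
      linarith
  have hi1 : Continuous fun a => 2 * (1 / Real.cosh (uu f a)) :=
    continuous_const.mul (cont_inv_cosh hc hp)
  rw [intervalIntegral.integral_sub (hi1.intervalIntegrable _ _)
    (hc2.intervalIntegrable _ _), intervalIntegral.integral_const_mul, h3] at h4
  have h5 : ∫ a in (0 : ℝ)..A, 1 / Real.cosh (uu f a) = GG f A := rfl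
  rw [h5] at h4
  rcases hA.eq_or_lt with rfl | hA0
  · simp
  · have h6 := HD A ⟨hA0, le_rfl⟩
    linarith

end Pool.Agent.Q196.FD
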